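import Mathlib
import Pool.Agent.MP_257582_lc.H60.Main

namespace Pool.Agent.Results.MP_257582_lc.ComponentEvasive

/-- Karp's conjecture holds, for every number of vertices, for every property that contains all
connected graphs and that, with a disjoint union of stars, contains every graph having the same
connected components. This covers all non-trivial monotone properties that depend only on the
sizes of the connected components. -/
theorem result :
    ∀ n : ℕ, ∀ P : SimpleGraph (Fin n) → Prop,
      (∀ G H : SimpleGraph (Fin n), G ≤ H → P G → P H) →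
      (∀ (σ : Fin n ≃ Fin n) (G : SimpleGraph (Fin n)), P G → P (G.map σ.toEmbedding)) →
      (∃ G : SimpleGraph (Fin n), P G) →
      (∃ G : SimpleGraph (Fin n), ¬ P G) →
      (∀ G : SimpleGraph (Fin n), G.Connected → P G) →
      (∀ S G : SimpleGraph (Fin n),
        (∀ a b c d, S.Adj a b → S.Adj b c → S.Adj c d → a = c ∨ b = d) →
        (∀ u v, S.Reachable u v ↔ G.Reachable u v) → P S → P G) →
      ∀ s : Finset (Sym2 (Fin n)) → SimpleGraph (Fin n) → Sym2 (Fin n),
        (∀ (Q : Finset (Sym2 (Fin n))) (G H : SimpleGraph (Fin n)),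
            (∀ e ∈ Q, (e ∈ G.edgeSet ↔ e ∈ H.edgeSet)) → s Q G = s Q H) →
        ∃ G H : SimpleGraph (Fin n),
          (∀ e ∈ (fun Q : Finset (Sym2 (Fin n)) => insert (s Q G) Q)^[n.choose 2 - 1]
                (∅ : Finset (Sym2 (Fin n))),
              (e ∈ G.edgeSet ↔ e ∈ H.edgeSet)) ∧ P G ∧ ¬ P H := by
  intro n P hmono hinv h1 h2 htop hstar s hs
  by_contra h
  exact Pool.Agent.MP_257582_lc.H60.not_setup hmono hinv htop hstar
    (Pool.Agent.MP_257582_lc.setup_of_strategy P hmono hinv h1 h2 s hs h)

end Pool.Agent.Results.MP_257582_lc.ComponentEvasive
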