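import Pool.Agent.MP_257582_lc.H49.FO

set_option autoImplicit false

namespace Pool.Agent.Results.MP_257582_lc.TwinBlind

/-- Let `q ≥ 1`, `n ≥ 16 q ^ 2` and let `P` be a non-trivial, isomorphism-invariant, upward-closed
property of graphs on `n` vertices.  Assume that for every template graph `T` the value of `P` on
the blow-up of `T` (vertices replaced by independent sets), and the value of `P` on the complement
of the blow-up, do not depend on the sizes of the classes as long as all classes have at least `q`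
vertices.  Then `P` has decision-tree complexity more than `n.choose 2 - 8 q n`. -/
theorem result :
    ∀ q n : ℕ, 1 ≤ q → 16 * q ^ 2 ≤ n → ∀ P : SimpleGraph (Fin n) → Prop,
      (∀ G H : SimpleGraph (Fin n), G ≤ H → P G → P H) →
      (∀ (σ : Fin n ≃ Fin n) (G : SimpleGraph (Fin n)), P G → P (G.map σ.toEmbedding)) →
      (∃ G : SimpleGraph (Fin n), P G) →
      (∃ G : SimpleGraph (Fin n), ¬ P G) →
      (∀ (k : ℕ) (T : SimpleGraph (Fin k)) (φ ψ : Fin n → Fin k),
        (∀ i : Fin k, q ≤ (Finset.univ.filter fun x : Fin n => φ x = i).card) →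
        (∀ i : Fin k, q ≤ (Finset.univ.filter fun x : Fin n => ψ x = i).card) →
        (P (T.comap φ) ↔ P (T.comap ψ)) ∧ (P (T.comap φ)ᶜ ↔ P (T.comap ψ)ᶜ)) →
      ∀ s : Finset (Sym2 (Fin n)) → SimpleGraph (Fin n) → Sym2 (Fin n),
        (∀ (Q : Finset (Sym2 (Fin n))) (G H : SimpleGraph (Fin n)),
            (∀ e ∈ Q, (e ∈ G.edgeSet ↔ e ∈ H.edgeSet)) → s Q G = s Q H) →
        ∀ d : ℕ, d + 8 * q * n ≤ n.choose 2 →
        ∃ G H : SimpleGraph (Fin n),
          (∀ e ∈ (fun Q : Finset (Sym2 (Fin n)) => insert (s Q G) Q)^[d]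
                (∅ : Finset (Sym2 (Fin n))),
              (e ∈ G.edgeSet ↔ e ∈ H.edgeSet)) ∧ P G ∧ ¬ P H := by
  intro q n hq hn P h1 h2 h3 h4 h5 s hs d hd
  by_contra h
  refine Pool.Agent.MP_257582_lc.H49.twin hq hn P h1 h2 h3 h4 h5 s hs hd fun G H hGH hG => ?_
  by_contra hH
  exact h ⟨G, H, hGH, hG, hH⟩

end Pool.Agent.Results.MP_257582_lc.TwinBlind
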